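import Pool.Agent.Q99.HU.Q239.LPND

/-! Project HT (helper99), job LPN (helper239): asymptotics of the integral. -/

set_option autoImplicit false

namespace Pool.Agent.Q99.HU.Q239

open Finset Filter Topology MeasureTheory
open Pool.Agent.Q99.HT
open Pool.Agent.Q99.KN (bb ct St LC S_LC S_GAM S_LAP S_GIM ez kz th jN)
open Pool.Agent.Q251.KN (taylor2 fz Eg fac_z IsQF eg_norm eg_tendsto fz_bound div_sqrt_tendsto sin_ne_of_im)

variable {c d : ℕ}

/-- the integrand at the translated point -/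
noncomputable def Pv (X : Nw c d) (N : ℕ) (w : Fin c → ℤ) (T : Fin d → ℂ) (J ζ : Fin c → ℂ)
    (v : X.Ix → ℝ) : ℂ := X.Pg N w (Tv X T v) (Jv X J v) (Zv X ζ v)

/-- the normalized integrand -/
noncomputable def Gf (X : Nw c d) (N : ℕ) (w : Fin c → ℤ) (T : Fin d → ℂ) (J ζ : Fin c → ℂ)
    (v : X.Ix → ℝ) : ℂ :=
  Complex.exp (N * (X.Ph w (Tv X T v) (Jv X J v) (Zv X ζ v) - X.Ph w T J ζ)) *
    ∏ s, Hs X N (Tv X T v) (Jv X J v) (Zv X ζ v) s

/-- the constant -/
noncomputable def cN (X : Nw c d) (N : ℕ) (w : Fin c → ℤ) (T : Fin d → ℂ) (J ζ : Fin c → ℂ) : ℂ :=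
  (cst X N)⁻¹ * Complex.exp (-(N * X.Ph w T J ζ))

theorem cst_ne (X : Nw c d) {N : ℕ} (hN : 1 ≤ N) : cst X N ≠ 0 := by
  have hN0 : (0:ℝ) < √(N:ℝ) := Real.sqrt_pos.2 (by exact_mod_cast hN)
  have hNc : (N : ℂ) ≠ 0 := by
    have : N ≠ 0 := by omega
    exact_mod_cast this
  unfold cst
  refine prod_ne_zero_iff.2 fun s _ => ?_
  refine div_ne_zero (mul_ne_zero (mul_ne_zero hNc (pow_ne_zero _ (by norm_num))) ?_)
    (pow_ne_zero _ (by exact_mod_cast hN0.ne'))
  split_ifs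
  · exact one_ne_zero
  · exact hNc

theorem gf_eq (X : Nw c d) {N : ℕ} (hN : 1 ≤ N) (w : Fin c → ℤ) (T : Fin d → ℂ) (J ζ : Fin c → ℂ)
    (v : X.Ix → ℝ) : Gf X N w T J ζ v = cN X N w T J ζ * Pv X N w T J ζ v := by
  have h1 := cst_ne X hN
  unfold Gf cN Pv
  rw [pg_eq X hN, mul_sub (N : ℂ), sub_eq_add_neg, Complex.exp_add]
  field_simp

theorem bv_cont (X : Nw c d) (s : Fin c) : Continuous fun v : X.Ix → ℝ => bv X v s := by
  by_cases h : X.α s 1 = 0
  · have : (fun v : X.Ix → ℝ => bv X v s) = fun _ => 0 := by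
      funext v
      exact bv_zero X v h
    rw [this]
    exact continuous_const
  · have : (fun v : X.Ix → ℝ => bv X v s) = fun v => v (.inr (.inl ⟨s, h⟩)) := by
      funext v
      unfold bv
      rw [dif_pos h]
    rw [this]
    exact continuous_apply _

section pts
variable {X : Nw c d} {r κ K C0 δ : ℝ}

theorem vN_cont (X : Nw c d) (N : ℕ) (T : Fin d → ℂ) (J : Fin c → ℂ) (s : Fin c) :
    Continuous fun v : X.Ix → ℝ => vN X N (Tv X T v) (Jv X J v) s := by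
  have hx : ∀ i, Continuous fun v : X.Ix → ℝ => X.xN N (Tv X T v) s i := by
    intro i
    unfold Nw.xN Tv
    fun_prop
  refine continuous_pi fun i => ?_
  fin_cases i
  · exact hx 0
  · exact hx 1
  · exact hx 2
  · exact continuous_const.add (Complex.continuous_ofReal.comp (bv_cont X s))

theorem pv_cont (hB : ∀ s, Blk (X.α s) r κ K C0) (w : Fin c → ℤ) {T : Fin d → ℂ} {J ζ : Fin c → ℂ}
    (hpos : ∀ s, 0 < (ζ s).im) {N : ℕ} (hN1 : 1 ≤ N) (hNq : ∀ s, ‖q4 X s‖ / N < r / 2)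
    {S : Set (X.Ix → ℝ)} (hS : ∀ v ∈ S, X.Rg (r / 2) (Tv X T v) (Jv X J v) (Zv X ζ v)) :
    ContinuousOn (Pv X N w T J ζ) S := by
  have hN0 : (0:ℝ) < N := by exact_mod_cast hN1
  have hZ : ∀ s, Continuous fun v : X.Ix → ℝ => Zv X ζ v s := by
    intro s
    unfold Zv
    fun_prop
  unfold Pv Nw.Pg
  refine continuousOn_finsetProd _ fun s _ => ?_
  refine ContinuousOn.mul (ContinuousOn.mul (ContinuousOn.mul continuousOn_const
    (ContinuousOn.mul (ContinuousOn.mul ?_ ?_) ?_)) continuousOn_const) ?_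
  · unfold ez
    have := hZ s
    exact Continuous.continuousOn (by fun_prop)
  · have := hZ s
    exact Continuous.continuousOn (by fun_prop)
  · unfold kz
    have := hZ s
    refine ContinuousOn.div continuousOn_const (Continuous.continuousOn (by fun_prop))
      fun v _ => pow_ne_zero 2 ?_
    apply sin_ne_of_im
    have e1 : (↑Real.pi * (↑N * Zv X ζ v s - ↑N + 1) / 2 : ℂ).im = Real.pi * N * (ζ s).im / 2 := by
      have e2 : (↑Real.pi * (↑N * Zv X ζ v s - ↑N + 1) / 2 : ℂ) =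
          ((Real.pi * N / 2 : ℝ) : ℂ) * ζ s +
            ((Real.pi * (N * v (.inr (.inr s)) - N + 1) / 2 : ℝ) : ℂ) := by
        unfold Zv
        push_cast
        ring
      rw [e2, Complex.add_im, Complex.ofReal_im, Complex.im_ofReal_mul]
      ring
    rw [e1]
    have := hpos s
    have hπ := Real.pi_pos
    positivity
  · show ContinuousOn (fun v : X.Ix → ℝ => PB N (X.α s) (vN X N (Tv X T v) (Jv X J v) s)
      (Zv X ζ v s)) S
    refine ContinuousOn.comp (g := fun p : (Fin 4 → ℂ) × ℂ => PB N (X.α s) p.1 p.2)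
      (f := fun v : X.Ix → ℝ => (vN X N (Tv X T v) (Jv X J v) s, Zv X ζ v s))
      ((hB s).diff N hN1).continuousOn ((vN_cont X N T J s).prodMk (hZ s)).continuousOn
      fun v hv => ?_
    have h1 := hS v hv
    have hr := (hB s).r0
    refine Set.mk_mem_prod (vN_mem h1 (hNq s)) ?_
    rw [mem_ball_zero_iff]
    exact (h1 s).2.trans (by linarith)

theorem ind_eq (X : Nw c d) {N : ℕ} (hN : 1 ≤ N) (w : Fin c → ℤ) (T : Fin d → ℂ) (J ζ : Fin c → ℂ)
    (S : Set (X.Ix → ℝ)) : S.indicator (Gf X N w T J ζ) =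
      fun v => cN X N w T J ζ * S.indicator (Pv X N w T J ζ) v := by
  funext v
  by_cases hv : v ∈ S
  · rw [Set.indicator_of_mem hv, Set.indicator_of_mem hv, gf_eq X hN]
  · rw [Set.indicator_of_notMem hv, Set.indicator_of_notMem hv, mul_zero]

theorem pv_pt {T : Fin d → ℂ} {J ζ : Fin c → ℂ} (haj : X.AJ J) (N : ℕ) (w : Fin c → ℤ)
    (v : X.Ix → ℝ) : Pv X N w T J ζ v = X.Pg N w
      (fun j => ((v + pr X T J ζ) (.inl j) : ℂ) + (T j).im * Complex.I)
      (X.Jf (v + pr X T J ζ) (fun s => (J s).im))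
      (fun s => ((v + pr X T J ζ) (.inr (.inr s)) : ℂ) + (ζ s).im * Complex.I) := by
  have e1 : ∀ (z : ℂ) (t : ℝ), z + t = ((t + z.re : ℝ) : ℂ) + z.im * Complex.I := by
    intro z t
    conv_lhs => rw [← Complex.re_add_im z]
    push_cast
    ring
  unfold Pv
  have h1 : Tv X T v = fun j => ((v + pr X T J ζ) (.inl j) : ℂ) + (T j).im * Complex.I := by
    funext j
    unfold Tv
    rw [e1]
    rfl
  have h2 : Jv X J v = X.Jf (v + pr X T J ζ) (fun s => (J s).im) := by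
    funext s
    unfold Jv Nw.Jf
    split_ifs with h
    · unfold bv
      rw [dif_pos h, e1]
      rfl
    · rw [haj s (not_not.1 h), bv_zero X v (not_not.1 h)]
      simp
  have h3 : Zv X ζ v = fun s => ((v + pr X T J ζ) (.inr (.inr s)) : ℂ) + (ζ s).im * Complex.I := by
    funext s
    unfold Zv
    rw [e1]
    rfl
  rw [h1, h2, h3]

theorem int_eq {T : Fin d → ℂ} {J ζ : Fin c → ℂ} (haj : X.AJ J) {N : ℕ} (hN : 1 ≤ N)
    (w : Fin c → ℤ) :
    ∫ v, (Sx X r δ N T J ζ).indicator (Gf X N w T J ζ) v =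
      cN X N w T J ζ * ∫ u in X.Bx r δ N, X.Pg N w (fun j => u (.inl j) + (T j).im * Complex.I)
        (X.Jf u (fun s => (J s).im)) (fun s => u (.inr (.inr s)) + (ζ s).im * Complex.I) := by
  rw [ind_eq X hN, integral_const_mul]
  congr 1
  have h1 : ∀ v, (Sx X r δ N T J ζ).indicator (Pv X N w T J ζ) v = (X.Bx r δ N).indicator
      (fun u => X.Pg N w (fun j => u (.inl j) + (T j).im * Complex.I)
        (X.Jf u (fun s => (J s).im)) (fun s => u (.inr (.inr s)) + (ζ s).im * Complex.I))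
      (v + pr X T J ζ) := by
    intro v
    by_cases hv : v ∈ Sx X r δ N T J ζ
    · have hv' : v + pr X T J ζ ∈ X.Bx r δ N := hv
      rw [Set.indicator_of_mem hv, Set.indicator_of_mem hv', pv_pt haj]
    · have hv' : v + pr X T J ζ ∉ X.Bx r δ N := hv
      rw [Set.indicator_of_notMem hv, Set.indicator_of_notMem hv']
  rw [integral_congr_ae (Filter.Eventually.of_forall h1), integral_add_right_eq_self _ (pr X T J ζ),
    integral_indicator (bx_closed X r δ N).measurableSet]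

/-- the quadratic form -/
noncomputable def Qf (X : Nw c d) (w : Fin c → ℤ) (T : Fin d → ℂ) (J ζ : Fin c → ℂ)
    (u : X.Ix → ℝ) : ℂ :=
  X.HP w T J ζ (fun j => (u (.inl j) : ℂ)) (fun s => (bv X u s : ℂ)) (fun s => (u (.inr (.inr s)) : ℂ))
    (fun j => (u (.inl j) : ℂ)) (fun s => (bv X u s : ℂ)) (fun s => (u (.inr (.inr s)) : ℂ)) / 2

theorem Jv_sqrt (X : Nw c d) (J : Fin c → ℂ) (u : X.Ix → ℝ) (N : ℕ) :
    Jv X J (fun i => u i / √(N:ℝ)) = fun s => J s + ((bv X u s / √(N:ℝ) : ℝ) : ℂ) := by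
  funext s
  unfold Jv
  rw [bv_smul]

theorem ph_lim (hB : ∀ s, Blk (X.α s) r κ K C0) {w : Fin c → ℤ} {T : Fin d → ℂ} {J ζ : Fin c → ℂ}
    (hcr : X.Cr w T J ζ) (hrg : X.Rg r T J ζ) (u : X.Ix → ℝ) :
    Tendsto (fun N : ℕ => (N : ℂ) * (X.Ph w (Tv X T fun i => u i / √(N:ℝ))
      (Jv X J fun i => u i / √(N:ℝ)) (Zv X ζ fun i => u i / √(N:ℝ)) - X.Ph w T J ζ))
      atTop (𝓝 (Qf X w T J ζ u)) := by
  have h := Ph_taylor hB hcr hrg (fun j => u (.inl j)) (bv X u) (fun s => u (.inr (.inr s)))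
    fun s hs => bv_zero X u hs
  refine h.congr fun N => ?_
  rw [Jv_sqrt]
  rfl

theorem qf_re {κ' : ℝ} (hB : ∀ s, Blk (X.α s) r κ K C0) {w : Fin c → ℤ} {T : Fin d → ℂ}
    {J ζ : Fin c → ℂ} (hcr : X.Cr w T J ζ) (hrg : X.Rg r T J ζ) (u : X.Ix → ℝ)
    (hmx : ∀ᶠ N : ℕ in atTop, (X.Ph w (Tv X T fun i => u i / √(N:ℝ))
      (Jv X J fun i => u i / √(N:ℝ)) (Zv X ζ fun i => u i / √(N:ℝ))).re ≤
      (X.Ph w T J ζ).re - κ' * ∑ i, (u i / √(N:ℝ)) ^ 2) :
    (Qf X w T J ζ u).re ≤ -κ' * ∑ i, u i ^ 2 := by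
  have h1 := (Complex.continuous_re.tendsto _).comp (ph_lim hB hcr hrg u)
  refine le_of_tendsto h1 ?_
  filter_upwards [hmx, eventually_ge_atTop 1] with N h2 hN1
  have hN0 : (0:ℝ) < N := by exact_mod_cast hN1
  simp only [Function.comp]
  rw [← Complex.ofReal_natCast, Complex.re_ofReal_mul, Complex.sub_re]
  have e1 : ∀ c : ℝ, (c / √(N:ℝ)) ^ 2 = (N:ℝ)⁻¹ * c ^ 2 := by
    intro c
    rw [div_pow, Real.sq_sqrt hN0.le]
    ring
  simp only [e1, ← Finset.mul_sum] at h2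
  calc (N : ℝ) * _ ≤ N * (-(κ' * ((N:ℝ)⁻¹ * ∑ i, u i ^ 2))) := by
        refine mul_le_mul_of_nonneg_left ?_ hN0.le
        linarith
    _ = -κ' * ∑ i, u i ^ 2 := by
        field_simp

theorem gf_tendsto (hLC : S_LC) (hX : X.Okb) (hB : ∀ s, Blk (X.α s) r κ K C0) {w : Fin c → ℤ}
    {T : Fin d → ℂ} {J ζ : Fin c → ℂ} (hcr : X.Cr w T J ζ) (hrg : X.Rg r T J ζ)
    (hrg2 : X.Rg (r / 2) T J ζ) (hpos : ∀ s, 0 < (ζ s).im) (u : X.Ix → ℝ)
    (hev : ∀ᶠ N : ℕ in atTop, X.Rg (r / 2) (Tv X T fun i => u i / √(N:ℝ))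
      (Jv X J fun i => u i / √(N:ℝ)) (Zv X ζ fun i => u i / √(N:ℝ))) :
    Tendsto (fun N : ℕ => Gf X N w T J ζ (fun i => u i / √(N:ℝ))) atTop
      (𝓝 (Complex.exp (Qf X w T J ζ u) * ∏ s, Hl X T J ζ s)) := by
  unfold Gf
  refine ((Complex.continuous_exp.tendsto _).comp (ph_lim hB hcr hrg u)).mul ?_
  refine tendsto_finsetProd _ fun s _ => ?_
  have hc : ∀ (z : ℂ) (x : ℝ), Tendsto (fun N : ℕ => z + ((x / √(N:ℝ) : ℝ) : ℂ)) atTop (𝓝 z) := by
    intro z x
    have h1 := ((Complex.continuous_ofReal.tendsto 0).comp (div_sqrt_tendsto x)).const_add z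
    simpa using h1
  refine Hs_tendsto hLC hX hB (Tn := fun N => Tv X T fun i => u i / √(N:ℝ))
    (Jn := fun N => Jv X J fun i => u i / √(N:ℝ)) (ζn := fun N => Zv X ζ fun i => u i / √(N:ℝ))
    (T := T) (J := J) (ζ := ζ) (fun j => hc _ _) (fun s => ?_) (fun s => hc _ _) (fun N s hs => ?_)
    (fun N s => ?_) hpos hev hrg2 s
  · simp only [Jv_sqrt]
    exact hc _ _
  · simp only [Jv_sqrt]
    rw [hcr.aj s hs, bv_zero X u hs]
    simp
  · show (ζ s + ((u (.inr (.inr s)) / √(N:ℝ) : ℝ) : ℂ)).im = (ζ s).im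
    rw [Complex.add_im, Complex.ofReal_im, add_zero]

end pts

/-- the number of the regions with a summation index -/
theorem card_J (X : Nw c d) : Fintype.card X.Ix = d + (Fintype.card {s : Fin c // X.α s 1 ≠ 0} + c) := by
  rw [Fintype.card_sum, Fintype.card_sum, Fintype.card_fin, Fintype.card_fin]

theorem cst_eq (X : Nw c d) (N : ℕ) : cst X N = (N : ℂ) ^ c * (-1) ^ (c * (N - 1)) *
    (N : ℂ) ^ Fintype.card {s : Fin c // X.α s 1 ≠ 0} / ((√N : ℝ) : ℂ) ^ X.nA := by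
  classical
  unfold cst Nw.nA
  rw [prod_div_distrib, prod_mul_distrib, prod_mul_distrib, prod_const, prod_const, prod_pow_eq_pow_sum,
    card_univ, Fintype.card_fin, ← pow_mul, mul_comm (N - 1) c]
  congr 2
  rw [Finset.prod_ite, prod_const_one, one_mul, prod_const]
  congr 1
  rw [Fintype.card_subtype]

theorem alg1 {s n g E I : ℂ} {d c a m : ℕ} (hs : s ≠ 0) (hn : n ≠ 0) (hg : g ≠ 0) (hgg : g⁻¹ = g)
    (hs2 : s ^ 2 = n) : s ^ (d + (a + c)) * ((n ^ c * g * n ^ a / s ^ m)⁻¹ * E * I) =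
      s ^ m / s ^ (d + (a + c)) * g * E * (n ^ d * I) := by
  have hsp : s ^ (d + (a + c)) ≠ 0 := pow_ne_zero _ hs
  have hsn : s ^ m ≠ 0 := pow_ne_zero _ hs
  have key : s ^ (d + (a + c)) * s ^ (d + (a + c)) = n ^ d * (n ^ c * n ^ a) := by
    rw [← pow_add, ← two_mul, pow_mul, hs2, ← pow_add, ← pow_add]
    congr 1
    ring
  have e2 : s ^ (d + (a + c)) * (n ^ c * g * n ^ a / s ^ m)⁻¹ =
      s ^ m / s ^ (d + (a + c)) * g * n ^ d := by
    generalize s ^ (d + (a + c)) = S at *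
    generalize s ^ m = M at *
    have hA : n ^ c ≠ 0 := pow_ne_zero _ hn
    have hB : n ^ a ≠ 0 := pow_ne_zero _ hn
    generalize n ^ c = A at *
    generalize n ^ a = B at *
    generalize n ^ d = D at *
    have hg2 : g * g = 1 := by
      rw [inv_eq_iff_eq_inv] at hgg
      calc g * g = g * g⁻¹ := by rw [← hgg]
        _ = 1 := mul_inv_cancel₀ hg
    rw [inv_div, mul_div_assoc', div_mul_eq_mul_div, div_mul_eq_mul_div, div_eq_div_iff
      (mul_ne_zero (mul_ne_zero hA hg) hB) hsp]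
    calc S * M * S = M * (S * S) * 1 := by ring
      _ = M * (D * (A * B)) * (g * g) := by rw [key, hg2]
      _ = _ := by ring
  calc _ = s ^ (d + (a + c)) * (n ^ c * g * n ^ a / s ^ m)⁻¹ * E * I := by ring
    _ = _ := by rw [e2]; ring

/-- **job LPN** -/
theorem task_LPN : S_LPNb := by
  intro hLC hLAP hGIM hMXN hBXN c d X hX r κ K C0 hB
  obtain ⟨δ0, hδ0, hδ0'⟩ := exists_delta (r := r) hX (fun s => (hB s).r0)
  refine ⟨δ0, hδ0, fun δ hδ hδle => ?_⟩
  have hδ' := hδ0' δ hδle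
  obtain ⟨κ', hκ', hmx⟩ := hMXN c d X hX r κ K C0 hB
  obtain ⟨N0, τ2, hτ2, hbox⟩ := hBXN c d X hX r κ K C0 hB δ hδ hδ'
  set r1 : ℝ := if c = 0 then 1 else r with hr1
  have hr1s : ∀ s : Fin c, r1 = r := by
    intro s
    have : c ≠ 0 := by
      rintro rfl
      exact s.elim0
    rw [hr1, if_neg this]
  have hr10 : 0 < r1 := by
    rw [hr1]
    split_ifs with h
    · exact one_pos
    · exact (hB ⟨0, Nat.pos_of_ne_zero h⟩).r0
  set ρ : ℝ := min (δ / 2) (min (r1 / 16) τ2) with hρ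
  have hρ0 : 0 < ρ := lt_min (by linarith) (lt_min (by linarith) hτ2)
  have hρδ : ρ ≤ δ / 2 := min_le_left _ _
  have hρr : ∀ s : Fin c, ρ ≤ r / 16 := fun s => by
    have h1 : ρ ≤ r1 / 16 := (min_le_right _ _).trans (min_le_left _ _)
    rwa [hr1s s] at h1
  have hρτ : ρ ≤ τ2 := (min_le_right _ _).trans (min_le_right _ _)
  refine ⟨ρ, hρ0, fun w T J ζ hcr hn hpos => ?_⟩
  have haj := hcr.aj
  have hrg2 : X.Rg (r / 2) T J ζ := by
    refine rg_of_near hB hδ' (fun j => ?_) (fun s => ?_) (fun s => ?_)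
    · linarith [hn.1 j]
    · linarith [hn.2.1 s, hρr s, (hB s).r0]
    · linarith [hn.2.2 s, hρr s, (hB s).r0]
  have hrr : ∀ {T : Fin d → ℂ} {J ζ : Fin c → ℂ}, X.Rg (r / 2) T J ζ → X.Rg r T J ζ :=
    fun h s => ⟨Metric.ball_subset_ball (by linarith [(hB s).r0]) (h s).1,
      (h s).2.trans (by linarith [(hB s).r0])⟩
  have hrg := hrr hrg2
  have h2N : Tendsto (fun N : ℕ => 1 / (2 * (N:ℝ))) atTop (𝓝 0) := by
    have h := tendsto_const_div_atTop_nhds_zero_nat (1 / 2 : ℝ)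
    refine h.congr fun N => ?_
    rw [div_div]
  have hev1 : ∀ᶠ N : ℕ in atTop, 1 / (2 * (N:ℝ)) ≤ δ / 2 := h2N.eventually_le_const (by linarith)
  have hev2 : ∀ᶠ N : ℕ in atTop, ∀ s : Fin c, 1 / (2 * (N:ℝ)) ≤ r / 16 := by
    rw [eventually_all]
    intro s
    exact h2N.eventually_le_const (by linarith [(hB s).r0])
  have hev3 : ∀ᶠ N : ℕ in atTop, ∀ s, Real.exp (-(Real.pi * N * (ζ s).im)) ≤ 1 / 2 := by
    rw [eventually_all]
    intro s
    exact (eg_tendsto (hpos s)).eventually_le_const (by norm_num)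
  have hev4 := ev_small hB
  have hev5 := eventually_ge_atTop (max 1 N0)
  have hmem : ∀ᶠ N : ℕ in atTop, ∀ v ∈ Sx X r δ N T J ζ,
      X.Rg (r / 2) (Tv X T v) (Jv X J v) (Zv X ζ v) := by
    filter_upwards [hev1, hev2, hev5] with N h1 h2 h3 v hv
    exact sx_mem hB hδ' hρδ hρr hn haj ((le_max_left _ _).trans h3) h1 h2 hv
  have hmx' : ∀ᶠ N : ℕ in atTop, ∀ v ∈ Sx X r δ N T J ζ,
      (X.Ph w (Tv X T v) (Jv X J v) (Zv X ζ v)).re ≤ (X.Ph w T J ζ).re - κ' * ∑ i, v i ^ 2 := by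
    filter_upwards [hmem] with N h1 v hv
    have h2 := hmx w T J ζ hcr hrg (fun j => v (.inl j)) (bv X v) (fun s => v (.inr (.inr s)))
      (fun s hs => bv_zero X v hs) (hrr (h1 v hv))
    rw [bv_sum] at h2
    rw [Ix_sum X fun i => v i ^ 2, ← add_assoc]
    exact h2
  have hsx : ∀ u : X.Ix → ℝ, ∀ᶠ N : ℕ in atTop, (fun i => u i / √(N:ℝ)) ∈ Sx X r δ N T J ζ :=
    fun u => sx_ev hB hδ hρδ hρr hn u
  obtain ⟨B, hB0, hBd⟩ := Hs_bound hLC hX hB
  have hlap := hLAP X.Ix κ' B hκ'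
    (fun N => (Sx X r δ N T J ζ).indicator (Gf X N w T J ζ))
    (fun u => Complex.exp (Qf X w T J ζ u) * ∏ s, Hl X T J ζ s)
    (by
      filter_upwards [hmem, hev4, hev5] with N h1 h2 h3
      have hN1 : 1 ≤ N := (le_max_left _ _).trans h3
      rw [ind_eq X hN1]
      refine AEStronglyMeasurable.const_mul ?_ _
      rw [aestronglyMeasurable_indicator_iff (sx_closed X r δ N T J ζ).measurableSet]
      exact (pv_cont hB w hpos hN1 h2 h1).aestronglyMeasurable (sx_closed X r δ N T J ζ).measurableSet)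
    (by
      filter_upwards [hmem, hmx', hev3, hev4, hev5] with N h1 h2 h3 h4 h5 u
      have hN1 : 1 ≤ N := (le_max_left _ _).trans h5
      by_cases hu : u ∈ Sx X r δ N T J ζ
      · rw [Set.indicator_of_mem hu]
        unfold Gf
        rw [norm_mul, Complex.norm_exp, mul_comm]
        refine mul_le_mul ?_ (Real.exp_le_exp.2 ?_) (Real.exp_pos _).le hB0
        · refine hBd N hN1 h4 _ _ _ (h1 u hu) (fun s hs => ?_) (fun s => ?_)
          · unfold Jv
            rw [haj s hs, bv_zero X u hs]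
            simp
          · rw [eg_norm]
            have : (Zv X ζ u s).im = (ζ s).im := by
              unfold Zv
              rw [Complex.add_im, Complex.ofReal_im, add_zero]
            rw [this]
            exact h3 s
        · have h6 := h2 u hu
          rw [← Complex.ofReal_natCast, Complex.re_ofReal_mul, Complex.sub_re]
          have h7 : (X.Ph w (Tv X T u) (Jv X J u) (Zv X ζ u)).re - (X.Ph w T J ζ).re ≤
              -(κ' * ∑ i, u i ^ 2) := by linarith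
          calc (N : ℝ) * _ ≤ N * (-(κ' * ∑ i, u i ^ 2)) :=
                mul_le_mul_of_nonneg_left h7 (Nat.cast_nonneg _)
            _ = _ := by ring
      · rw [Set.indicator_of_notMem hu, norm_zero]
        exact mul_nonneg hB0 (Real.exp_pos _).le)
    (by
      intro u
      refine (gf_tendsto hLC hX hB hcr hrg hrg2 hpos u ?_).congr' ?_
      · filter_upwards [hmem, hsx u] with N h1 h2
        exact h1 _ h2
      · filter_upwards [hsx u] with N hN
        rw [Set.indicator_of_mem hN])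
  refine ⟨_, ?_, hlap.congr' ?_⟩
  · rw [integral_mul_const]
    refine mul_ne_zero ?_ (prod_ne_zero_iff.2 fun s _ => Hl_ne (hpos s))
    obtain ⟨A, hA⟩ := HP_qf X w T J ζ
    have hA' : ∀ u, Qf X w T J ζ u = ∑ i, ∑ j, A i j * u i * u j := hA
    have hg := hGIM X.Ix A κ' hκ' (fun u => by
      rw [← hA' u]
      refine qf_re hB hcr hrg u ?_
      filter_upwards [hmx', hsx u] with N h1 h2
      exact h1 _ h2)
    refine fun h => hg ?_
    rw [← h]
    refine integral_congr_ae (Filter.Eventually.of_forall fun u => ?_)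
    simp only
    rw [← hA' u]
  · filter_upwards [hev5] with N h5
    have hN1 : 1 ≤ N := (le_max_left _ _).trans h5
    have hNN : N0 ≤ N := (le_max_right _ _).trans h5
    rw [int_eq haj hN1, ← hbox w (fun s => (ζ s).im) (fun s => (J s).im) (fun j => (T j).im)
      (fun s => ⟨hpos s, by
        have h1 := (le_abs_self _).trans (Complex.abs_im_le_norm (ζ s))
        linarith [hn.2.2 s], (im_le (hn.2.1 s)).trans hρτ⟩)
      (fun j => (im_le (hn.1 j)).trans hρτ) N hNN]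
    have hN0 : (0:ℝ) < N := by exact_mod_cast hN1
    have hs0 : ((√(N:ℝ) : ℝ) : ℂ) ≠ 0 := by
      exact_mod_cast (Real.sqrt_pos.2 hN0).ne'
    have hs2 : ((√(N:ℝ) : ℝ) : ℂ) ^ 2 = (N : ℂ) := by
      have := Real.sq_sqrt hN0.le
      exact_mod_cast this
    have hN0' : (N : ℂ) ≠ 0 := by
      exact_mod_cast hN0.ne'
    have hsg : (((-1 : ℂ)) ^ (c * (N - 1)))⁻¹ = (-1) ^ (c * (N - 1)) := by
      rw [← inv_pow (-1 : ℂ)]
      norm_num
    have hsg0 : (((-1 : ℂ)) ^ (c * (N - 1))) ≠ 0 := pow_ne_zero _ (by norm_num)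
    unfold cN
    rw [cst_eq, card_J]
    exact alg1 hs0 hN0' hsg0 hsg hs2

end Pool.Agent.Q99.HU.Q239
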