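import Pool.Agent.Q99.HU.Q239.MXN
import Pool.Agent.Q251.KN.IQA3

/-! Project HT (helper99), job LPN (helper239), part 1: one region. -/

set_option autoImplicit false

namespace Pool.Agent.Q99.HU.Q239

open Finset Filter Topology MeasureTheory
open Pool.Agent.Q99.HT
open Pool.Agent.Q99.KN (bb ct St LC S_LC S_GAM S_LAP S_GIM ez kz th)
open Pool.Agent.Q251.KN (taylor2 fz Eg fac_z IsQF eg_norm eg_tendsto fz_bound div_sqrt_tendsto sin_ne_of_im)

section region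
variable {α : Fin 6 → ℝ} {r κ K C0 : ℝ}

theorem PE_line (hB : Blk α r κ K C0) {v u : Fin 4 → ℂ} {ζ b : ℂ} {t : ℝ}
    (hv : v + (t : ℂ) • u ∈ Metric.ball (vC α) r) (hz : ‖ζ + t * b‖ < r) :
    HasDerivAt (fun t : ℝ => PE α (v + (t : ℂ) • u) (ζ + t * b))
      (PG α (v + (t : ℂ) • u) (ζ + t * b) u b) t := by
  have h1 := (hB.der _ hv _ hz u 0 b 0).1
  refine shift1 (G := fun z : ℂ => PE α (v + z • u) (ζ + z * b)) (t0 := t) ?_
  refine h1.congr_of_eventuallyEq (Filter.Eventually.of_forall fun z => ?_)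
  show PE α (v + (t + z) • u) (ζ + (t + z) * b) = _
  congr 1
  · rw [add_smul, add_assoc]
  · ring

theorem PG_line (hB : Blk α r κ K C0) {v u u' : Fin 4 → ℂ} {ζ b b' : ℂ} {t : ℝ}
    (hv : v + (t : ℂ) • u ∈ Metric.ball (vC α) r) (hz : ‖ζ + t * b‖ < r) :
    HasDerivAt (fun t : ℝ => PG α (v + (t : ℂ) • u) (ζ + t * b) u' b')
      (PH α (v + (t : ℂ) • u) (ζ + t * b) u b u' b') t := by
  have h1 := (hB.der _ hv _ hz u u' b b').2
  refine shift1 (G := fun z : ℂ => PG α (v + z • u) (ζ + z * b) u' b') (t0 := t) ?_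
  refine h1.congr_of_eventuallyEq (Filter.Eventually.of_forall fun z => ?_)
  show PG α (v + (t + z) • u) (ζ + (t + z) * b) u' b' = _
  congr 1
  · rw [add_smul, add_assoc]
  · ring

theorem seg_mem {v u : Fin 4 → ℂ} {ζ b : ℂ} (h0 : v ∈ Metric.ball (vC α) r) (hz0 : ‖ζ‖ < r)
    (h1 : v + u ∈ Metric.ball (vC α) r) (hz1 : ‖ζ + b‖ < r) {t : ℝ} (ht : t ∈ Set.Icc (0:ℝ) 1) :
    v + (t : ℂ) • u ∈ Metric.ball (vC α) r ∧ ‖ζ + t * b‖ < r := by
  have hc1 := (convex_ball (vC α) r) h0 h1 (sub_nonneg.2 ht.2) ht.1 (by ring : (1 - t) + t = 1)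
  have hc2 := (convex_ball (0:ℂ) r) (mem_ball_zero_iff.2 hz0) (mem_ball_zero_iff.2 hz1)
    (sub_nonneg.2 ht.2) ht.1 (by ring : (1 - t) + t = 1)
  constructor
  · convert! hc1 using 1
    ext i
    simp only [Pi.add_apply, Pi.smul_apply, Complex.real_smul, smul_eq_mul]
    push_cast
    ring
  · rw [mem_ball_zero_iff] at hc2
    convert! hc2 using 2
    simp only [Complex.real_smul]
    push_cast
    ring

theorem PG_lip (hB : Blk α r κ K C0) {v u : Fin 4 → ℂ} {ζ b : ℂ} (h0 : v ∈ Metric.ball (vC α) r)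
    (hz0 : ‖ζ‖ < r) (h1 : v + u ∈ Metric.ball (vC α) r) (hz1 : ‖ζ + b‖ < r) (u' : Fin 4 → ℂ) (b' : ℂ) :
    ‖PG α (v + u) (ζ + b) u' b' - PG α v ζ u' b'‖ ≤ C0 * (‖u‖ + ‖b‖) * (‖u'‖ + ‖b'‖) := by
  have h := norm_image_sub_le_of_norm_deriv_le_segment_01'
    (f := fun t : ℝ => PG α (v + (t : ℂ) • u) (ζ + t * b) u' b')
    (f' := fun t : ℝ => PH α (v + (t : ℂ) • u) (ζ + t * b) u b u' b')
    (C := C0 * (‖u‖ + ‖b‖) * (‖u'‖ + ‖b'‖))
    (fun t ht => (PG_line hB (seg_mem h0 hz0 h1 hz1 ht).1 (seg_mem h0 hz0 h1 hz1 ht).2).hasDerivWithinAt)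
    (fun t ht => by
      have ht' : t ∈ Set.Icc (0:ℝ) 1 := ⟨ht.1, ht.2.le⟩
      exact hB.bdd _ (seg_mem h0 hz0 h1 hz1 ht').1 _ (seg_mem h0 hz0 h1 hz1 ht').2 u u' b b')
  simpa using h

theorem PE_taylor1 (hB : Blk α r κ K C0) {v u : Fin 4 → ℂ} {ζ b : ℂ} (h0 : v ∈ Metric.ball (vC α) r)
    (hz0 : ‖ζ‖ < r) (h1 : v + u ∈ Metric.ball (vC α) r) (hz1 : ‖ζ + b‖ < r) :
    ‖PE α (v + u) (ζ + b) - PE α v ζ - PG α v ζ u b‖ ≤ C0 * (‖u‖ + ‖b‖) * (‖u‖ + ‖b‖) := by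
  have hC0 : 0 ≤ C0 := zero_le_one.trans hB.C1
  have h := norm_image_sub_le_of_norm_deriv_le_segment_01'
    (f := fun t : ℝ => PE α (v + (t : ℂ) • u) (ζ + t * b) - t * PG α v ζ u b)
    (f' := fun t : ℝ => PG α (v + (t : ℂ) • u) (ζ + t * b) u b - 1 * PG α v ζ u b)
    (C := C0 * (‖u‖ + ‖b‖) * (‖u‖ + ‖b‖))
    (fun t ht => by
      have h2 := PE_line hB (seg_mem h0 hz0 h1 hz1 ht).1 (seg_mem h0 hz0 h1 hz1 ht).2
      have h3 : HasDerivAt (fun t : ℝ => (t : ℂ) * PG α v ζ u b) (1 * PG α v ζ u b) t :=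
        (Complex.ofRealCLM.hasDerivAt (x := t)).mul_const _
      exact (h2.sub h3).hasDerivWithinAt)
    (fun t ht => by
      have ht' : t ∈ Set.Icc (0:ℝ) 1 := ⟨ht.1, ht.2.le⟩
      obtain ⟨h2, h3⟩ := seg_mem h0 hz0 h1 hz1 ht'
      have h4 := PG_lip hB h0 hz0 h2 h3 u b
      rw [one_mul]
      refine h4.trans ?_
      have h5 : ‖(t : ℂ) • u‖ ≤ ‖u‖ := by
        rw [norm_smul, Complex.norm_real, Real.norm_of_nonneg ht.1]
        exact mul_le_of_le_one_left (norm_nonneg _) ht.2.le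
      have h6 : ‖(t : ℂ) * b‖ ≤ ‖b‖ := by
        rw [norm_mul, Complex.norm_real, Real.norm_of_nonneg ht.1]
        exact mul_le_of_le_one_left (norm_nonneg _) ht.2.le
      gcongr)
  have e : (fun t : ℝ => PE α (v + (t : ℂ) • u) (ζ + t * b) - t * PG α v ζ u b) 1 -
      (fun t : ℝ => PE α (v + (t : ℂ) • u) (ζ + t * b) - t * PG α v ζ u b) 0 =
      PE α (v + u) (ζ + b) - PE α v ζ - PG α v ζ u b := by
    simp only [Complex.ofReal_one, Complex.ofReal_zero, one_smul, zero_smul, one_mul, zero_mul, add_zero,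
      sub_zero]
    ring
  rw [e] at h
  exact h

theorem PG_bound (hB : Blk α r κ K C0) {v : Fin 4 → ℂ} {ζ : ℂ} (h0 : v ∈ Metric.ball (vC α) r)
    (hz0 : ‖ζ‖ < r) (u' : Fin 4 → ℂ) (b' : ℂ) :
    ‖PG α v ζ u' b'‖ ≤ ‖PG α (vC α) 0 u' b'‖ + C0 * (2 * r) * (‖u'‖ + ‖b'‖) := by
  have hC0 : 0 ≤ C0 := zero_le_one.trans hB.C1
  have hr := hB.r0
  have h1 := PG_lip hB (v := vC α) (u := v - vC α) (ζ := 0) (b := ζ) (Metric.mem_ball_self hr)
    (by simpa using hr) (by simpa using h0) (by simpa using hz0) u' b'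
  rw [add_sub_cancel, zero_add] at h1
  have h2 : ‖v - vC α‖ < r := by rwa [mem_ball_iff_norm] at h0
  have h3 := norm_sub_norm_le (PG α v ζ u' b') (PG α (vC α) 0 u' b')
  have h4 : C0 * (‖v - vC α‖ + ‖ζ‖) * (‖u'‖ + ‖b'‖) ≤ C0 * (2 * r) * (‖u'‖ + ‖b'‖) := by
    have : ‖v - vC α‖ + ‖ζ‖ ≤ 2 * r := by linarith
    gcongr
  linarith

theorem lf_smul (k : ℂ) (u : Fin 4 → ℂ) (i : Fin 6) : lf (k • u) i = k * lf u i := by
  fin_cases i <;> simp [lf] <;> ring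

theorem lf_add (u v : Fin 4 → ℂ) (i : Fin 6) : lf (u + v) i = lf u i + lf v i := by
  fin_cases i <;> simp [lf] <;> ring

theorem PG_smul (v : Fin 4 → ℂ) (ζ k : ℂ) (u : Fin 4 → ℂ) (b : ℂ) :
    PG α v ζ (k • u) (k * b) = k * PG α v ζ u b := by
  unfold PG
  rw [mul_sum]
  refine sum_congr rfl fun i _ => ?_
  split_ifs
  · rw [mul_zero]
  · rw [lf_smul]
    unfold gT
    ring

theorem PA_ne (v : Fin 4 → ℂ) : PA α v ≠ 0 := by
  unfold PA
  refine prod_ne_zero_iff.2 fun i _ => ?_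
  split_ifs
  · exact one_ne_zero
  · exact Complex.exp_ne_zero _

theorem lf_vC (hα : Fr α) (i : Fin 6) : lf (vC α) i = (ctr α i : ℂ) := by
  have h1 : ((α 0 + α 1 + α 2 : ℝ) : ℂ) = ((1 / 2 : ℝ) : ℂ) := by rw [hα.s1]
  have h2 : ((α 3 + α 4 + α 5 : ℝ) : ℂ) = ((1 / 2 : ℝ) : ℂ) := by rw [hα.s2]
  push_cast at h1 h2
  fin_cases i
  · simp [lf, vC, ctr]
  · simp [lf, vC, ctr]
  · simp [lf, vC, ctr]
    linear_combination h1
  · simp [lf, vC, ctr]
  · simp [lf, vC, ctr]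
  · simp [lf, vC, ctr]
    linear_combination h2

theorem lf_norm (u : Fin 4 → ℂ) (i : Fin 6) : ‖lf u i‖ ≤ 3 * ‖u‖ := by
  have h : ∀ j, ‖u j‖ ≤ ‖u‖ := fun j => norm_le_pi_norm u j
  have h0 := h 0
  have h1 := h 1
  have h2 := h 2
  have h3 := h 3
  have hn := norm_nonneg u
  fin_cases i
  · simp [lf]; linarith
  · simp [lf]; linarith
  · simp [lf]
    exact (norm_add_le _ _).trans (by linarith)
  · simp [lf]; linarith
  · simp [lf]
    exact (norm_sub_le _ _).trans (by linarith)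
  · simp [lf]
    exact (norm_add_le _ _).trans (by linarith [norm_sub_le (u 1) (u 3)])

theorem lf_St (hα : Fr α) (hB : Blk α r κ K C0) {v : Fin 4 → ℂ} (hv : v ∈ Metric.closedBall (vC α) r)
    {i : Fin 6} (hi : ctr α i ≠ 0) : lf v i ∈ St := by
  obtain ⟨h1, h2⟩ := hB.sml i hi
  have hr := hB.r0
  have h3 : lf v i = ctr α i + lf (v - vC α) i := by
    rw [← lf_vC hα, ← lf_add, add_sub_cancel]
  have h4 : ‖lf (v - vC α) i‖ ≤ 3 * r := by
    refine (lf_norm _ _).trans ?_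
    rw [mem_closedBall_iff_norm] at hv
    linarith
  have h5 := (Complex.abs_re_le_norm (lf (v - vC α) i)).trans h4
  rw [abs_le] at h5
  have h6 : (lf v i).re = ctr α i + (lf (v - vC α) i).re := by
    rw [h3, Complex.add_re, Complex.ofReal_re]
  refine ⟨?_, ?_⟩
  · rw [h6]; linarith
  · rw [h6]; linarith

theorem PA_cont (hLC : S_LC) (hα : Fr α) (hB : Blk α r κ K C0) :
    ContinuousOn (PA α) (Metric.closedBall (vC α) r) := by
  obtain ⟨-, -, -, hbb, -⟩ := hLC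
  unfold PA
  refine continuousOn_finsetProd _ fun i _ => ?_
  by_cases hi : ctr α i = 0
  · simp only [if_pos hi]
    exact continuousOn_const
  · simp only [if_neg hi]
    intro v hv
    have h1 : ContinuousAt bb (lf v i) := (hbb _ (lf_St hα hB hv hi)).continuousAt
    have h2 : Continuous fun v : Fin 4 → ℂ => lf v i := by
      fin_cases i <;> simp only [lf] <;> fun_prop
    have h3 : ContinuousAt (fun v : Fin 4 → ℂ => bb (lf v i)) v :=
      ContinuousAt.comp (f := fun v : Fin 4 → ℂ => lf v i) (g := bb) h1 h2.continuousAt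
    exact (Complex.continuous_exp.continuousAt.comp (h3.div_const 2)).continuousWithinAt

theorem PA_bound (hLC : S_LC) (hα : Fr α) (hB : Blk α r κ K C0) :
    ∃ B : ℝ, ∀ v ∈ Metric.closedBall (vC α) r, ‖(PA α v)⁻¹‖ ≤ B :=
  (isCompact_closedBall (vC α) r).exists_bound_of_continuousOn
    ((PA_cont hLC hα hB).inv₀ fun v _ => PA_ne v)

end region

end Pool.Agent.Q99.HU.Q239
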