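import Pool.Agent.Q99.HU.Q239.LPNA

/-! Project HT (helper99), job LPN (helper239), part 2: the amplitude. -/

set_option autoImplicit false

namespace Pool.Agent.Q99.HU.Q239

open Finset Filter Topology MeasureTheory
open Pool.Agent.Q99.HT
open Pool.Agent.Q99.KN (bb ct St LC S_LC S_GAM S_LAP S_GIM ez kz th)
open Pool.Agent.Q251.KN (taylor2 fz Eg fac_z IsQF eg_norm eg_tendsto fz_bound div_sqrt_tendsto sin_ne_of_im)

variable {c d : ℕ}

/-- the shift of the corners -/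
def q4 (X : Nw c d) (s : Fin c) : Fin 4 → ℂ := ![(X.q0 s 0 : ℂ), (X.q0 s 1 : ℂ), (X.q0 s 2 : ℂ), 0]

/-- the shifted variables -/
noncomputable def vN (X : Nw c d) (N : ℕ) (T : Fin d → ℂ) (J : Fin c → ℂ) (s : Fin c) : Fin 4 → ℂ :=
  ![X.xN N T s 0, X.xN N T s 1, X.xN N T s 2, J s]

theorem vN_eq (X : Nw c d) (N : ℕ) (T : Fin d → ℂ) (J : Fin c → ℂ) (s : Fin c) :
    vN X N T J s = X.v T J s + (-(1 / (N:ℂ))) • q4 X s := by
  have h : ∀ i, X.xN N T s i = X.x T s i + (-(1 / (N:ℂ))) * (X.q0 s i : ℂ) := by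
    intro i
    unfold Nw.xN Nw.x
    ring
  ext i
  fin_cases i
  · exact h 0
  · exact h 1
  · exact h 2
  · show J s = J s + (-(1 / (N:ℂ))) * 0
    ring

theorem qc_zero {X : Nw c d} (hX : X.Okb) {s : Fin c} (h : X.α s 1 = 0) : qc (X.α s) 1 = 0 := by
  show X.α s 1 + X.α s 4 = 0
  rw [h, ((hX.fr s).z14).1 h, add_zero]

theorem adm_v {X : Nw c d} (hX : X.Okb) {T : Fin d → ℂ} {J : Fin c → ℂ} {s : Fin c}
    (hJ : X.α s 1 = 0 → J s = 0) : Adm (X.α s) (X.v T J s) := by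
  have hz : ∀ i, qc (X.α s) i = 0 → X.x T s i = 0 := by
    intro i hi
    obtain ⟨h1, h2⟩ := hX.zer s i hi
    unfold Nw.x
    rw [h1]
    simp [h2]
  exact ⟨fun h => hz 0 h, fun h => ⟨hz 1 (qc_zero hX h), hJ h⟩, fun h => hz 2 h⟩

theorem adm_vN {X : Nw c d} (hX : X.Okb) {N : ℕ} {T : Fin d → ℂ} {J : Fin c → ℂ} {s : Fin c}
    (hJ : X.α s 1 = 0 → J s = 0) : Adm (X.α s) (vN X N T J s) := by
  have hz : ∀ i, qc (X.α s) i = 0 → X.xN N T s i = 0 := by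
    intro i hi
    obtain ⟨h1, h2⟩ := hX.zer s i hi
    unfold Nw.xN
    rw [h1]
    simp [h2]
  exact ⟨fun h => hz 0 h, fun h => ⟨hz 1 (qc_zero hX h), hJ h⟩, fun h => hz 2 h⟩

/-- the quotient of a block and its asymptotics -/
noncomputable def Rb (X : Nw c d) (N : ℕ) (T : Fin d → ℂ) (J ζ : Fin c → ℂ) (s : Fin c) : ℂ :=
  PB N (X.α s) (vN X N T J s) (ζ s) * (((√N : ℝ) : ℂ) ^ na (X.α s) * PA (X.α s) (vN X N T J s)) *
    Complex.exp (-(N * PE (X.α s) (vN X N T J s) (ζ s)))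

/-- the amplitude of a region -/
noncomputable def Hs (X : Nw c d) (N : ℕ) (T : Fin d → ℂ) (J ζ : Fin c → ℂ) (s : Fin c) : ℂ :=
  fz N (ζ s) * (Rb X N T J ζ s * (PA (X.α s) (vN X N T J s))⁻¹ *
    Complex.exp (N * (PE (X.α s) (vN X N T J s) (ζ s) - PE (X.α s) (X.v T J s) (ζ s))))

/-- the constant factor -/
noncomputable def cst (X : Nw c d) (N : ℕ) : ℂ :=
  ∏ s, ((N : ℂ) * (-1) ^ (N - 1) * (if X.α s 1 = 0 then 1 else (N : ℂ)) /
    ((√N : ℝ) : ℂ) ^ na (X.α s))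

theorem pg_eq (X : Nw c d) {N : ℕ} (hN : 1 ≤ N) (w : Fin c → ℤ) (T : Fin d → ℂ) (J ζ : Fin c → ℂ) :
    X.Pg N w T J ζ = cst X N * Complex.exp (N * X.Ph w T J ζ) * ∏ s, Hs X N T J ζ s := by
  unfold Nw.Pg Nw.Ph cst
  rw [mul_sum, Complex.exp_sum, ← prod_mul_distrib, ← prod_mul_distrib]
  refine prod_congr rfl fun s _ => ?_
  rw [fac_z N hN]
  have hN0 : (0:ℝ) < √(N:ℝ) := Real.sqrt_pos.2 (by exact_mod_cast hN)
  have ha : ((√N : ℝ) : ℂ) ^ na (X.α s) ≠ 0 := pow_ne_zero _ (by exact_mod_cast hN0.ne')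
  have hP := PA_ne (α := X.α s) (vN X N T J s)
  have e1 : Complex.exp (-(N * PE (X.α s) (vN X N T J s) (ζ s))) =
      (Complex.exp (N * PE (X.α s) (vN X N T J s) (ζ s)))⁻¹ := Complex.exp_neg _
  have e2 : Complex.exp (N * (PE (X.α s) (vN X N T J s) (ζ s) - PE (X.α s) (X.v T J s) (ζ s))) =
      Complex.exp (N * PE (X.α s) (vN X N T J s) (ζ s)) / Complex.exp (N * PE (X.α s) (X.v T J s) (ζ s)) := by
    rw [mul_sub, Complex.exp_sub]
  have e3 : Complex.exp (N * (PE (X.α s) (X.v T J s) (ζ s) + Complex.I * Real.pi * w s * ζ s ^ 2 / 4 +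
      Complex.I * Real.pi * ζ s)) = Complex.exp (N * PE (X.α s) (X.v T J s) (ζ s)) *
      Complex.exp (N * (Complex.I * Real.pi * w s * ζ s ^ 2 / 4 + Complex.I * Real.pi * ζ s)) := by
    rw [← Complex.exp_add]
    congr 1
    ring
  have hE1 := Complex.exp_ne_zero (N * PE (X.α s) (vN X N T J s) (ζ s))
  have hE2 := Complex.exp_ne_zero (N * PE (X.α s) (X.v T J s) (ζ s))
  unfold Hs Rb
  rw [e1, e2, e3]
  show _ * PB N (X.α s) (vN X N T J s) (ζ s) = _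
  generalize Complex.exp (N * PE (X.α s) (vN X N T J s) (ζ s)) = E1 at *
  generalize Complex.exp (N * PE (X.α s) (X.v T J s) (ζ s)) = E2 at *
  generalize PA (X.α s) (vN X N T J s) = P at *
  generalize ((√N : ℝ) : ℂ) ^ na (X.α s) = a at *
  field_simp

theorem Rg_mono {X : Nw c d} {r r' : ℝ} (h : r ≤ r') {T : Fin d → ℂ} {J ζ : Fin c → ℂ}
    (hrg : X.Rg r T J ζ) : X.Rg r' T J ζ :=
  fun s => ⟨Metric.ball_subset_ball h (hrg s).1, (hrg s).2.trans_le h⟩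

section blk
variable {X : Nw c d} {r κ K C0 : ℝ}

theorem vN_mem {N : ℕ} {T : Fin d → ℂ} {J ζ : Fin c → ℂ} (hrg : X.Rg (r / 2) T J ζ) {s : Fin c}
    (hN : ‖q4 X s‖ / N < r / 2) : vN X N T J s ∈ Metric.ball (vC (X.α s)) r := by
  have h1 := (hrg s).1
  rw [mem_ball_iff_norm] at h1 ⊢
  rw [vN_eq]
  have h2 : ‖(-(1 / (N:ℂ))) • q4 X s‖ = ‖q4 X s‖ / N := by
    rw [norm_smul, norm_neg, norm_div, norm_one, Complex.norm_natCast]
    ring
  calc ‖X.v T J s + (-(1 / (N:ℂ))) • q4 X s - vC (X.α s)‖ =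
      ‖(X.v T J s - vC (X.α s)) + (-(1 / (N:ℂ))) • q4 X s‖ := by congr 1; abel
    _ ≤ ‖X.v T J s - vC (X.α s)‖ + ‖(-(1 / (N:ℂ))) • q4 X s‖ := norm_add_le _ _
    _ < r := by rw [h2]; linarith

theorem NPE (hB : ∀ s, Blk (X.α s) r κ K C0) {N : ℕ} (hN1 : 1 ≤ N) {T : Fin d → ℂ} {J ζ : Fin c → ℂ}
    (hrg : X.Rg (r / 2) T J ζ) {s : Fin c} (hN : ‖q4 X s‖ / N < r / 2) :
    ‖(N : ℂ) * (PE (X.α s) (vN X N T J s) (ζ s) - PE (X.α s) (X.v T J s) (ζ s)) +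
      PG (X.α s) (X.v T J s) (ζ s) (q4 X s) 0‖ ≤ C0 * ‖q4 X s‖ ^ 2 / N := by
  have hr := (hB s).r0
  have hN0 : (0:ℝ) < N := by exact_mod_cast hN1
  have hNc : (N : ℂ) ≠ 0 := by exact_mod_cast hN0.ne'
  have h0 := (Rg_mono (by linarith : r / 2 ≤ r) hrg) s
  have h1 := vN_mem hrg hN
  have h2 := PE_taylor1 (hB s) (v := X.v T J s) (u := (-(1 / (N:ℂ))) • q4 X s) (ζ := ζ s) (b := 0)
    h0.1 h0.2 (by rw [← vN_eq]; exact h1) (by rw [add_zero]; exact h0.2)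
  have h3 := PG_smul (α := X.α s) (X.v T J s) (ζ s) (-(1 / (N:ℂ))) (q4 X s) 0
  rw [mul_zero] at h3
  rw [add_zero, ← vN_eq, h3, norm_zero, add_zero] at h2
  have h4 : ‖(-(1 / (N:ℂ))) • q4 X s‖ = ‖q4 X s‖ / N := by
    rw [norm_smul, norm_neg, norm_div, norm_one, Complex.norm_natCast]
    ring
  rw [h4] at h2
  have e : (N : ℂ) * (PE (X.α s) (vN X N T J s) (ζ s) - PE (X.α s) (X.v T J s) (ζ s)) +
      PG (X.α s) (X.v T J s) (ζ s) (q4 X s) 0 = N * (PE (X.α s) (vN X N T J s) (ζ s) -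
        PE (X.α s) (X.v T J s) (ζ s) - -(1 / (N:ℂ)) * PG (X.α s) (X.v T J s) (ζ s) (q4 X s) 0) := by
    field_simp
    ring
  rw [e, norm_mul, Complex.norm_natCast]
  calc (N : ℝ) * _ ≤ N * (C0 * (‖q4 X s‖ / N) * (‖q4 X s‖ / N)) := mul_le_mul_of_nonneg_left h2 hN0.le
    _ = _ := by field_simp

theorem Rb_near (hX : X.Okb) (hB : ∀ s, Blk (X.α s) r κ K C0) {N : ℕ} (hN1 : 1 ≤ N) {T : Fin d → ℂ}
    {J ζ : Fin c → ℂ} (hrg : X.Rg (r / 2) T J ζ) {s : Fin c} (hJ : X.α s 1 = 0 → J s = 0)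
    (hN : ‖q4 X s‖ / N < r / 2) : ‖Rb X N T J ζ s - 1‖ ≤ C0 / N := by
  have hr := (hB s).r0
  exact (hB s).asy N hN1 _ (vN_mem hrg hN) (adm_vN hX hJ) _
    ((Rg_mono (by linarith : r / 2 ≤ r) hrg) s).2

theorem Hs_bound (hLC : S_LC) (hX : X.Okb) (hB : ∀ s, Blk (X.α s) r κ K C0) :
    ∃ B : ℝ, 0 ≤ B ∧ ∀ N : ℕ, 1 ≤ N → (∀ s, ‖q4 X s‖ / N < r / 2) → ∀ (T : Fin d → ℂ) (J ζ : Fin c → ℂ),
      X.Rg (r / 2) T J ζ → (∀ s, X.α s 1 = 0 → J s = 0) → (∀ s, ‖Eg N (ζ s)‖ ≤ 1 / 2) →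
      ‖∏ s, Hs X N T J ζ s‖ ≤ B := by
  obtain ⟨B1, hB1⟩ := fz_bound
  choose B2 hB2 using fun s => PA_bound hLC (hX.fr s) (hB s)
  set M : Fin c → ℝ := fun s => ‖PG (X.α s) (vC (X.α s)) 0 (q4 X s) 0‖ +
    C0 * (2 * r) * (‖q4 X s‖ + ‖(0:ℂ)‖) + C0 * ‖q4 X s‖ ^ 2 with hM
  refine ⟨∏ s, (|B1| * ((1 + C0) * |B2 s| * Real.exp (M s))), ?_, ?_⟩
  · refine prod_nonneg fun s _ => ?_
    have := (hB s).C1
    positivity
  intro N hN1 hN T J ζ hrg hJ hE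
  rw [norm_prod]
  refine prod_le_prod (fun s _ => norm_nonneg _) fun s _ => ?_
  have hr := (hB s).r0
  have hC0 : 0 ≤ C0 := zero_le_one.trans (hB s).C1
  have hN0 : (1:ℝ) ≤ N := by exact_mod_cast hN1
  have hrg' := (Rg_mono (by linarith : r / 2 ≤ r) hrg) s
  unfold Hs
  rw [norm_mul, norm_mul, norm_mul]
  have h1 : ‖fz N (ζ s)‖ ≤ |B1| :=
    (hB1 N (ζ s) (by linarith [hrg'.2, (hB s).r1]) (hE s)).trans (le_abs_self _)
  have h2 : ‖Rb X N T J ζ s‖ ≤ 1 + C0 := by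
    have h3 := Rb_near hX hB hN1 hrg (hJ s) (hN s)
    have h4 : C0 / N ≤ C0 := div_le_self hC0 hN0
    have h5 : ‖Rb X N T J ζ s‖ ≤ ‖Rb X N T J ζ s - 1‖ + ‖(1:ℂ)‖ := by
      have := norm_add_le (Rb X N T J ζ s - 1) 1
      simpa using this
    rw [norm_one] at h5
    linarith
  have h3 : ‖(PA (X.α s) (vN X N T J s))⁻¹‖ ≤ |B2 s| :=
    (hB2 s _ (Metric.ball_subset_closedBall (vN_mem hrg (hN s)))).trans (le_abs_self _)
  have h4 : ‖Complex.exp (N * (PE (X.α s) (vN X N T J s) (ζ s) - PE (X.α s) (X.v T J s) (ζ s)))‖ ≤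
      Real.exp (M s) := by
    rw [Complex.norm_exp]
    apply Real.exp_le_exp.2
    refine (Complex.re_le_norm _).trans ?_
    have h5 := NPE hB hN1 hrg (hN s)
    have h6 := PG_bound (hB s) hrg'.1 hrg'.2 (q4 X s) 0
    have h7 : C0 * ‖q4 X s‖ ^ 2 / N ≤ C0 * ‖q4 X s‖ ^ 2 := div_le_self (by positivity) hN0
    have h8 := norm_sub_le ((N : ℂ) * (PE (X.α s) (vN X N T J s) (ζ s) - PE (X.α s) (X.v T J s) (ζ s)) +
      PG (X.α s) (X.v T J s) (ζ s) (q4 X s) 0) (PG (X.α s) (X.v T J s) (ζ s) (q4 X s) 0)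
    rw [add_sub_cancel_right] at h8
    simp only [hM]
    linarith
  have h23 : ‖Rb X N T J ζ s‖ * ‖(PA (X.α s) (vN X N T J s))⁻¹‖ ≤ (1 + C0) * |B2 s| :=
    mul_le_mul h2 h3 (norm_nonneg _) (by linarith)
  have h234 := mul_le_mul h23 h4 (norm_nonneg _) (by positivity)
  exact mul_le_mul h1 h234 (by positivity) (abs_nonneg _)

theorem v_tendsto {Tn : ℕ → Fin d → ℂ} {Jn : ℕ → Fin c → ℂ} {T : Fin d → ℂ} {J : Fin c → ℂ}
    (hT : ∀ j, Tendsto (fun N => Tn N j) atTop (𝓝 (T j)))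
    (hJ : ∀ s, Tendsto (fun N => Jn N s) atTop (𝓝 (J s))) (s : Fin c) :
    Tendsto (fun N => X.v (Tn N) (Jn N) s) atTop (𝓝 (X.v T J s)) := by
  have hx : ∀ i, Tendsto (fun N => X.x (Tn N) s i) atTop (𝓝 (X.x T s i)) := by
    intro i
    unfold Nw.x
    exact (tendsto_finsetSum _ fun j _ => (hT j).mul_const _).const_add _
  rw [tendsto_pi_nhds]
  intro i
  fin_cases i
  · exact hx 0
  · exact hx 1
  · exact hx 2
  · exact hJ s

theorem ev_small (hB : ∀ s, Blk (X.α s) r κ K C0) : ∀ᶠ N : ℕ in atTop, ∀ s, ‖q4 X s‖ / N < r / 2 := by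
  rw [eventually_all]
  intro s
  have h := tendsto_const_div_atTop_nhds_zero_nat ‖q4 X s‖
  exact h.eventually_lt_const (half_pos (hB s).r0)

/-- the limit of the amplitude of a region -/
noncomputable def Hl (X : Nw c d) (T : Fin d → ℂ) (J ζ : Fin c → ℂ) (s : Fin c) : ℂ :=
  Real.pi / Complex.I * Complex.sin (Real.pi * ζ s) * (1 * (PA (X.α s) (X.v T J s))⁻¹ *
    Complex.exp (-PG (X.α s) (X.v T J s) (ζ s) (q4 X s) 0))

theorem Hl_ne {T : Fin d → ℂ} {J ζ : Fin c → ℂ} {s : Fin c} (h : 0 < (ζ s).im) : Hl X T J ζ s ≠ 0 := by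
  unfold Hl
  refine mul_ne_zero (mul_ne_zero (div_ne_zero (by exact_mod_cast Real.pi_ne_zero) Complex.I_ne_zero)
    (sin_ne_of_im ?_)) (mul_ne_zero (mul_ne_zero one_ne_zero (inv_ne_zero (PA_ne _)))
    (Complex.exp_ne_zero _))
  rw [Complex.im_ofReal_mul]
  exact (mul_pos Real.pi_pos h).ne'

theorem Hs_tendsto (hLC : S_LC) (hX : X.Okb) (hB : ∀ s, Blk (X.α s) r κ K C0)
    {Tn : ℕ → Fin d → ℂ} {Jn ζn : ℕ → Fin c → ℂ} {T : Fin d → ℂ} {J ζ : Fin c → ℂ}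
    (hT : ∀ j, Tendsto (fun N => Tn N j) atTop (𝓝 (T j)))
    (hJ : ∀ s, Tendsto (fun N => Jn N s) atTop (𝓝 (J s)))
    (hζ : ∀ s, Tendsto (fun N => ζn N s) atTop (𝓝 (ζ s)))
    (hadm : ∀ N s, X.α s 1 = 0 → Jn N s = 0) (him : ∀ N s, (ζn N s).im = (ζ s).im)
    (hpos : ∀ s, 0 < (ζ s).im) (hrg : ∀ᶠ N in atTop, X.Rg (r / 2) (Tn N) (Jn N) (ζn N))
    (hrg0 : X.Rg (r / 2) T J ζ) (s : Fin c) :
    Tendsto (fun N => Hs X N (Tn N) (Jn N) (ζn N) s) atTop (𝓝 (Hl X T J ζ s)) := by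
  have hr := (hB s).r0
  have hC0 : 0 ≤ C0 := zero_le_one.trans (hB s).C1
  have hrr : r / 2 ≤ r := by linarith
  have hv := v_tendsto (X := X) hT hJ s
  have hrg0' := (Rg_mono hrr hrg0) s
  have hev := hrg.and ((ev_small hB).and (eventually_ge_atTop 1))
  unfold Hs Hl
  refine Tendsto.mul ?_ (Tendsto.mul (Tendsto.mul ?_ ?_) ?_)
  · unfold fz
    have h1 : Tendsto (fun N : ℕ => Eg N (ζn N s)) atTop (𝓝 0) := by
      rw [tendsto_zero_iff_norm_tendsto_zero]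
      refine (eg_tendsto (hpos s)).congr fun N => ?_
      rw [eg_norm, him]
    have h2 : Tendsto (fun N : ℕ => (1 - Eg N (ζn N s)) ^ 2) atTop (𝓝 ((1 - 0) ^ 2)) :=
      (h1.const_sub 1).pow 2
    have h3 : Tendsto (fun N : ℕ => (Real.pi / Complex.I * Complex.sin (Real.pi * ζn N s) : ℂ)) atTop
        (𝓝 (Real.pi / Complex.I * Complex.sin (Real.pi * ζ s))) := by
      have hc : Continuous fun Z : ℂ => (Real.pi / Complex.I * Complex.sin (Real.pi * Z) : ℂ) := by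
        fun_prop
      exact (hc.tendsto _).comp (hζ s)
    have h4 := h3.div h2 (by norm_num)
    have e0 : (Real.pi / Complex.I * Complex.sin (Real.pi * ζ s) : ℂ) / (1 - 0) ^ 2 =
        Real.pi / Complex.I * Complex.sin (Real.pi * ζ s) := by simp
    rw [e0] at h4
    exact h4
  · rw [tendsto_iff_norm_sub_tendsto_zero]
    refine squeeze_zero' (Filter.Eventually.of_forall fun N => norm_nonneg _) ?_
      (tendsto_const_div_atTop_nhds_zero_nat C0)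
    filter_upwards [hev] with N hN
    exact Rb_near hX hB hN.2.2 hN.1 (hadm N s) (hN.2.1 s)
  · have h1 : Tendsto (fun N => vN X N (Tn N) (Jn N) s) atTop (𝓝 (X.v T J s)) := by
      have h2 : Tendsto (fun N : ℕ => (-(1 / (N:ℂ))) • q4 X s) atTop (𝓝 ((0:ℂ) • q4 X s)) := by
        refine Tendsto.smul_const ?_ _
        have := (tendsto_one_div_atTop_nhds_zero_nat (𝕜 := ℂ)).neg
        simpa using this
      have h3 := hv.add h2
      rw [zero_smul, add_zero] at h3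
      exact h3.congr fun N => (vN_eq X N _ _ s).symm
    have h2 : ContinuousAt (PA (X.α s)) (X.v T J s) :=
      (PA_cont hLC (hX.fr s) (hB s)).continuousAt
        (Metric.closedBall_mem_nhds_of_mem hrg0'.1)
    exact (h2.tendsto.comp h1).inv₀ (PA_ne _)
  · have h1 : Tendsto (fun N : ℕ => (N : ℂ) * (PE (X.α s) (vN X N (Tn N) (Jn N) s) (ζn N s) -
        PE (X.α s) (X.v (Tn N) (Jn N) s) (ζn N s)) +
        PG (X.α s) (X.v (Tn N) (Jn N) s) (ζn N s) (q4 X s) 0) atTop (𝓝 0) := by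
      rw [tendsto_zero_iff_norm_tendsto_zero]
      refine squeeze_zero' (Filter.Eventually.of_forall fun N => norm_nonneg _) ?_
        (tendsto_const_div_atTop_nhds_zero_nat (C0 * ‖q4 X s‖ ^ 2))
      filter_upwards [hev] with N hN
      exact NPE hB hN.2.2 hN.1 (hN.2.1 s)
    have h2 : Tendsto (fun N : ℕ => PG (X.α s) (X.v (Tn N) (Jn N) s) (ζn N s) (q4 X s) 0) atTop
        (𝓝 (PG (X.α s) (X.v T J s) (ζ s) (q4 X s) 0)) := by
      rw [tendsto_iff_norm_sub_tendsto_zero]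
      have h3 : Tendsto (fun N => C0 * (‖X.v (Tn N) (Jn N) s - X.v T J s‖ + ‖ζn N s - ζ s‖) *
          (‖q4 X s‖ + ‖(0:ℂ)‖)) atTop (𝓝 0) := by
        have e1 := (tendsto_iff_norm_sub_tendsto_zero.1 hv)
        have e2 := (tendsto_iff_norm_sub_tendsto_zero.1 (hζ s))
        have e3 := ((e1.add e2).const_mul C0).mul_const (‖q4 X s‖ + ‖(0:ℂ)‖)
        simpa using e3
      refine squeeze_zero' (Filter.Eventually.of_forall fun N => norm_nonneg _) ?_ h3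
      filter_upwards [hev] with N hN
      have hN' := (Rg_mono hrr hN.1) s
      have h4 := PG_lip (hB s) (v := X.v T J s) (u := X.v (Tn N) (Jn N) s - X.v T J s) (ζ := ζ s)
        (b := ζn N s - ζ s) hrg0'.1 hrg0'.2 (by rw [add_sub_cancel]; exact hN'.1)
        (by rw [add_sub_cancel]; exact hN'.2) (q4 X s) 0
      rw [add_sub_cancel, add_sub_cancel] at h4
      exact h4
    have h3 := h1.sub h2
    rw [zero_sub] at h3
    exact (Complex.continuous_exp.tendsto _).comp (h3.congr fun N => by ring)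

end blk

end Pool.Agent.Q99.HU.Q239
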